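import Pool.Agent.Lib.MP_5c318e_ag.S.ModA
import Pool.Agent.Lib.MP_5c318e_ag.S.CFub
import Pool.Agent.Lib.MP_5c318e_ag.S.RAlgA
import Pool.Agent.Lib.MP_5c318e_ag.RD.RExt

/-! Uniform lifts of translations near a compact subset of a Riemann domain; tubes around a
fibre; spreading of large values of holomorphic functions from fibres to tubes. -/

set_option autoImplicit false
set_option linter.unusedSectionVars false

namespace Pool.Agent.Lib.MP_5c318e_ag.Sp

open MeasureTheory Set Filter Topology Function Metric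

section lift

variable {ι : Type} [Fintype ι] {S : Type} [TopologicalSpace S] [MeasurableSpace S] [T2Space S]

/-- uniqueness of lifts -/
theorem lift_eq (D : RD ι S) {A : Type} [TopologicalSpace A] {s : Set A} (hs : IsPreconnected s)
    {g₁ g₂ : A → S} (h₁ : ContinuousOn g₁ s) (h₂ : ContinuousOn g₂ s)
    (he : ∀ a ∈ s, D.π (g₁ a) = D.π (g₂ a)) {a : A} (has : a ∈ s) (ha : g₁ a = g₂ a) :
    EqOn g₁ g₂ s :=
  (T2Space.isSeparatedMap D.π).eqOn_of_comp_eqOn D.loc.isLocallyInjective hs h₁ h₂ he has ha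

/-- `Θ x z` is the point over `π x + z` on the sheet of `x` -/
structure Lift (D : RD ι S) (K : Set S) (r : ℝ) (Θ : S → (ι → ℂ) → S) : Prop where
  zero : ∀ x ∈ K, Θ x 0 = x
  cont : ContinuousOn (uncurry Θ) (K ×ˢ closedBall 0 r)
  proj : ∀ x ∈ K, ∀ z ∈ closedBall (0 : ι → ℂ) r, D.π (Θ x z) = D.π x + z

variable {D : RD ι S} {K : Set S} {r : ℝ} {Θ : S → (ι → ℂ) → S}

theorem Lift.mono (h : Lift D K r Θ) {r' : ℝ} (hr : r' ≤ r) : Lift D K r' Θ :=
  ⟨h.zero, h.cont.mono (prod_mono Subset.rfl (closedBall_subset_closedBall hr)),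
    fun x hx z hz => h.proj x hx z (closedBall_subset_closedBall hr hz)⟩

theorem Lift.on (h : Lift D K r Θ) {x : S} (hx : x ∈ K) : ContinuousOn (Θ x) (closedBall 0 r) :=
  h.cont.comp (f := fun z => (x, z)) (by fun_prop) fun _ hz => ⟨hx, hz⟩

theorem Lift.inj (h : Lift D K r Θ) {x x' : S} (hx : x ∈ K) (hx' : x' ∈ K) (e : D.π x = D.π x')
    {z : ι → ℂ} (hz : z ∈ closedBall (0 : ι → ℂ) r) (e' : Θ x z = Θ x' z) : x = x' := by
  have := lift_eq D (convex_closedBall (0 : ι → ℂ) r).isPreconnected (h.on hx) (h.on hx')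
    (fun a ha => by rw [h.proj x hx a ha, h.proj x' hx' a ha, e]) hz e'
    (mem_closedBall_self ((dist_nonneg).trans hz))
  rwa [h.zero x hx, h.zero x' hx'] at this

theorem exists_lift [BorelSpace S] (D : RD ι S) (hK : IsCompact K) {U : Set (S × S)}
    (hU : ∀ x ∈ K, U ∈ 𝓝 (x, x)) : ∃ r : ℝ, 0 < r ∧ ∃ Θ, Lift D K r Θ ∧
      ∀ x ∈ K, ∀ z ∈ closedBall (0 : ι → ℂ) r, (x, Θ x z) ∈ U := by
  classical
  have := D.wlc
  have key : ∀ x, ∃ (N : Set S) (d : ℝ), x ∈ K → N ∈ 𝓝 x ∧ IsClosed N ∧ 0 < d ∧ ∀ y ∈ N,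
      y ∈ (D.ch x).source ∧ ∀ z ∈ closedBall (0 : ι → ℂ) d,
        D.π y + z ∈ (D.ch x).target ∧ (y, D.sec x (D.π y + z)) ∈ U := by
    intro x
    by_cases hx : x ∈ K
    swap
    · exact ⟨∅, 0, fun h => (hx h).elim⟩
    have c1 : ContinuousAt (fun q : S × (ι → ℂ) => D.π q.1 + q.2) (x, 0) :=
      ((D.cont_π.comp continuous_fst).add continuous_snd).continuousAt
    have c2 : ContinuousAt (fun q : S × (ι → ℂ) => (q.1, D.sec x (D.π q.1 + q.2))) (x, 0) :=
      continuousAt_fst.prodMk (ContinuousAt.comp (g := D.sec x)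
        (by simpa only [add_zero] using RD.sec_contAt (D.mem_tgt x)) c1)
    have e1 := c1.preimage_mem_nhds (t := (D.ch x).target)
      (by simpa using RD.tgt_nhds (D.mem_tgt x))
    have e2 := c2.preimage_mem_nhds (t := U) (by simpa [D.sec_self] using hU x hx)
    obtain ⟨V, hV, W, hW, hs⟩ := mem_nhds_prod_iff.1 (inter_mem e1 e2)
    obtain ⟨d, d0, hd⟩ := nhds_basis_closedBall.mem_iff.1 hW
    obtain ⟨N, n1, n2, n3⟩ := local_compact_nhds
      (inter_mem hV ((D.ch x).open_source.mem_nhds (D.mem_src x)))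
    exact ⟨N, d, fun _ => ⟨n1, n3.isClosed, d0, fun y hy => ⟨(n2 hy).2, fun z hz =>
      hs (mk_mem_prod (n2 hy).1 (hd hz))⟩⟩⟩
  choose N d hN using key
  obtain ⟨t, t1, t2⟩ := hK.elim_nhds_subcover N fun x hx => (hN x hx).1
  obtain ⟨r, r0, hr⟩ : ∃ r : ℝ, 0 < r ∧ ∀ a ∈ t, r ≤ d a := by
    have : ∀ᶠ r in 𝓝[>] (0 : ℝ), ∀ a ∈ t, r ≤ d a := (eventually_all_finset t).2 fun a ha =>
      mem_nhdsWithin_of_mem_nhds (Iic_mem_nhds (hN a (t1 a ha)).2.2.1)
    obtain ⟨r, h1, h2⟩ := (this.and self_mem_nhdsWithin).exists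
    exact ⟨r, h2, h1⟩
  have hc : ∀ x, ∃ a, x ∈ K → a ∈ t ∧ x ∈ N a := fun x => by
    by_cases hx : x ∈ K
    · obtain ⟨a, h1, h2⟩ := mem_iUnion₂.1 (t2 hx)
      exact ⟨a, fun _ => ⟨h1, h2⟩⟩
    · exact ⟨x, fun h => (hx h).elim⟩
  choose c hc using hc
  have b1 : ∀ a ∈ t, ∀ y ∈ N a, y ∈ (D.ch a).source ∧ ∀ z ∈ closedBall (0 : ι → ℂ) r,
      D.π y + z ∈ (D.ch a).target ∧ (y, D.sec a (D.π y + z)) ∈ U := fun a ha y hy =>
    ⟨((hN a (t1 a ha)).2.2.2 y hy).1, fun z hz =>
      ((hN a (t1 a ha)).2.2.2 y hy).2 z (closedBall_subset_closedBall (hr a ha) hz)⟩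
  have b2 : ∀ a ∈ t, ContinuousOn (fun q : S × (ι → ℂ) => D.sec a (D.π q.1 + q.2))
      (N a ×ˢ closedBall 0 r) := fun a ha =>
    (D.sec_contOn a).comp ((D.cont_π.comp continuous_fst).add continuous_snd).continuousOn
      fun q hq => ((b1 a ha q.1 hq.1).2 q.2 hq.2).1
  have b3 : ∀ a ∈ t, ∀ y ∈ N a, ContinuousOn (fun z => D.sec a (D.π y + z)) (closedBall 0 r) :=
    fun a ha y hy => (b2 a ha).comp (f := fun z => (y, z)) (by fun_prop) fun _ hz => ⟨hy, hz⟩
  refine ⟨r, r0, fun x z => D.sec (c x) (D.π x + z), ⟨fun x hx => ?_, ?_, fun x hx z hz => ?_⟩,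
    fun x hx z hz => ((b1 _ (hc x hx).1 x (hc x hx).2).2 z hz).2⟩
  · rw [add_zero, RD.sec_π (b1 _ (hc x hx).1 x (hc x hx).2).1]
  · refine ((locallyFinite_of_finite fun a : t => (K ∩ N a) ×ˢ closedBall (0 : ι → ℂ) r).continuousOn_iUnion
      (fun a => (hK.isClosed.inter (hN a (t1 a a.2)).2.1).prod isClosed_closedBall)
      fun a => ((b2 a a.2).mono (prod_mono inter_subset_right Subset.rfl)).congr
        fun q hq => ?_).mono fun q hq => mem_iUnion.2 ⟨⟨c q.1, (hc _ hq.1).1⟩, ⟨hq.1, (hc _ hq.1).2⟩, hq.2⟩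
    have h1 := hc _ hq.1.1
    refine lift_eq D (convex_closedBall (0 : ι → ℂ) r).isPreconnected (b3 _ h1.1 _ h1.2)
      (b3 a a.2 _ hq.1.2) (fun z hz => ?_) (mem_closedBall_self r0.le) ?_ hq.2
    · rw [RD.π_sec ((b1 _ h1.1 _ h1.2).2 z hz).1, RD.π_sec ((b1 a a.2 _ hq.1.2).2 z hz).1]
    · simp only [add_zero]
      rw [RD.sec_π (b1 _ h1.1 _ h1.2).1, RD.sec_π (b1 a a.2 _ hq.1.2).1]
  · exact RD.π_sec ((b1 _ (hc x hx).1 x (hc x hx).2).2 z hz).1

end lift

section tube

variable {δ ν : Type} [Fintype δ] [DecidableEq δ] [Fintype ν] [DecidableEq ν] {S S' : Type}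
  [TopologicalSpace S] [MeasurableSpace S] [BorelSpace S] [T2Space S] [SigmaCompactSpace S]
  [TopologicalSpace S'] [MeasurableSpace S'] [BorelSpace S'] [T2Space S'] [SigmaCompactSpace S']

/-- a vector in the directions of the base -/
def em (ν : Type) (y : δ → ℂ) : δ ⊕ ν → ℂ := Sum.elim y 0

theorem em_zero : em ν (0 : δ → ℂ) = 0 := by
  funext i
  rcases i with i | i <;> rfl

theorem em_mem {y : δ → ℂ} {r : ℝ} (hy : y ∈ ball (0 : δ → ℂ) r) :
    em ν y ∈ ball (0 : δ ⊕ ν → ℂ) r := by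
  have r0 : 0 < r := pos_of_mem_ball hy
  rw [mem_ball_zero_iff, pi_norm_lt_iff r0] at hy ⊢
  rintro (i | i)
  · exact hy i
  · simpa [em] using r0

theorem em_diff : Differentiable ℂ (em ν : (δ → ℂ) → _) := by
  refine differentiable_pi.2 ?_
  rintro (i | i)
  · exact differentiable_apply i
  · exact differentiable_const _

/-- the integral over a tube -/
theorem tube {D : RD (δ ⊕ ν) S} {K : Set S} {r : ℝ} {Θ : S → (δ ⊕ ν → ℂ) → S} (h : Lift D K r Θ)
    (E : RD ν S') {j : S' → S} (hj : Continuous j) (ij : Injective j) {y0 : δ → ℂ}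
    (hπ : ∀ p, D.π (j p) = Sum.elim y0 (E.π p)) {G : Set S'} (hG : MeasurableSet G)
    (GK : ∀ p ∈ G, j p ∈ K) {F : S → ENNReal} (hF : Measurable F) :
    ∫⁻ p in G, (∫⁻ y in ball (0 : δ → ℂ) r, F (Θ (j p) (em ν y))) ∂E.μ ≤
      ∫⁻ x in {x | (fun i => D.π x (Sum.inl i)) ∈ ball y0 r}, F x ∂D.μ := by
  classical
  have := RSub.sigmaFinite E
  set T : Set S := {x | (fun i => D.π x (Sum.inl i)) ∈ ball y0 r} with hT
  have mT : MeasurableSet T :=
    (isOpen_ball.preimage (continuous_pi fun i => (continuous_apply _).comp D.cont_π)).measurableSet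
  have ms : MeasurableSet (G ×ˢ ball (0 : δ → ℂ) r) := hG.prod measurableSet_ball
  have c1 : ContinuousOn (fun q : S' × (δ → ℂ) => Θ (j q.1) (em ν q.2)) (G ×ˢ ball 0 r) :=
    h.cont.comp (f := fun q : S' × (δ → ℂ) => (j q.1, em ν q.2))
      ((hj.comp continuous_fst).prodMk (em_diff.continuous.comp continuous_snd)).continuousOn
      fun q hq => ⟨GK _ hq.1, ball_subset_closedBall (em_mem hq.2)⟩
  let H : S' × (δ → ℂ) → ENNReal := (G ×ˢ ball 0 r).indicator fun q => F (Θ (j q.1) (em ν q.2))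
  have mH : Measurable H := by
    have := (hF.comp (c1.measurable_piecewise (hj.comp continuous_fst).continuousOn ms)).indicator ms
    convert this using 1
    exact indicator_congr fun q hq => by simp only [comp, piecewise_eq_of_mem _ _ _ hq]
  have H1 : ∀ p ∈ G, ∀ y ∈ ball (0 : δ → ℂ) r, H (p, y) = F (Θ (j p) (em ν y)) :=
    fun p hp y hy => indicator_of_mem (mk_mem_prod hp hy) _
  have H0 : ∀ p y, (p, y) ∉ G ×ˢ ball (0 : δ → ℂ) r → H (p, y) = 0 :=
    fun p y h => indicator_of_notMem h _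
  obtain ⟨g1, g2⟩ := RD.lint_fib D (hF.indicator mT)
  have pr : ∀ p ∈ G, ∀ y ∈ ball (0 : δ → ℂ) r,
      D.π (Θ (j p) (em ν y)) = Sum.elim (y0 + y) (E.π p) := fun p hp y hy => by
    rw [h.proj _ (GK p hp) _ (ball_subset_closedBall (em_mem hy)), hπ]
    funext i
    rcases i with i | i <;> simp [em]
  calc _ = ∫⁻ p, (∫⁻ y, H (p, y)) ∂E.μ := by
        rw [← lintegral_indicator hG]
        refine lintegral_congr fun p => ?_
        by_cases hp : p ∈ G
        · rw [indicator_of_mem hp, ← lintegral_indicator measurableSet_ball]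
          refine lintegral_congr fun y => ?_
          by_cases hy : y ∈ ball (0 : δ → ℂ) r
          · rw [indicator_of_mem hy]
            exact (H1 p hp y hy).symm
          · rw [indicator_of_notMem hy]
            exact (H0 p y fun h => hy h.2).symm
        · rw [indicator_of_notMem hp]
          exact ((lintegral_congr fun y => H0 p y fun h => hp h.1).trans lintegral_zero).symm
    _ = ∫⁻ y, ∫⁻ p, H (p, y) ∂E.μ := lintegral_lintegral_swap (f := fun p y => H (p, y))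
        mH.aemeasurable
    _ ≤ ∫⁻ y : δ → ℂ, ∫⁻ w : ν → ℂ,
          ∑' x : D.π ⁻¹' {Sum.elim (y0 + y) w}, T.indicator F x := by
        refine lintegral_mono fun y => ?_
        rw [(RD.lint_fib E (G := fun p => H (p, y)) (mH.comp measurable_prodMk_right)).2]
        refine lintegral_mono fun w => ?_
        by_cases hy : y ∈ ball (0 : δ → ℂ) r
        swap
        · exact le_trans (le_of_eq ((tsum_congr fun p => H0 _ y fun h => hy h.2).trans tsum_zero))
            zero_le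
        let i : (Subtype.val ⁻¹' G : Set (E.π ⁻¹' {w})) → D.π ⁻¹' {Sum.elim (y0 + y) w} := fun p =>
          ⟨Θ (j p.1.1) (em ν y), by rw [mem_preimage, pr _ p.2 y hy, show E.π p.1.1 = w from p.1.2]; rfl⟩
        have ii : Injective i := fun p p' e => Subtype.ext (Subtype.ext (ij (h.inj (GK _ p.2)
          (GK _ p'.2) (by rw [hπ, hπ, show E.π p.1.1 = w from p.1.2, show E.π p'.1.1 = w from p'.1.2])
          (ball_subset_closedBall (em_mem hy)) (congrArg Subtype.val e))))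
        refine le_trans (le_of_eq ?_) (ENNReal.tsum_comp_le_tsum_of_injective ii _)
        have : ∀ p : (Subtype.val ⁻¹' G : Set (E.π ⁻¹' {w})),
            T.indicator F (i p) = F (Θ (j p.1.1) (em ν y)) := fun p =>
          indicator_of_mem (by
            simp only [hT, i, mem_ofPred_eq, pr _ p.2 y hy, Sum.elim_inl]
            exact add_mem_ball_iff_norm.2 (mem_ball_zero_iff.1 hy)) _
        simp only [this]
        rw [tsum_subtype (Subtype.val ⁻¹' G : Set (E.π ⁻¹' {w})) fun p => F (Θ (j p.1) (em ν y))]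
        refine tsum_congr fun p => ?_
        by_cases hp : p.1 ∈ G
        · rw [indicator_of_mem (show p ∈ Subtype.val ⁻¹' G from hp)]
          exact H1 _ hp y hy
        · rw [indicator_of_notMem (show p ∉ Subtype.val ⁻¹' G from hp)]
          exact H0 _ y fun h => hp h.1
    _ = _ := by
        rw [lintegral_add_left_eq_self (fun a : δ → ℂ => ∫⁻ w : ν → ℂ,
          ∑' x : D.π ⁻¹' {Sum.elim a w}, T.indicator F x) y0, ← (CFub.tonelli g1).2, ← g2,
          lintegral_indicator mT]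

end tube

end Pool.Agent.Lib.MP_5c318e_ag.Sp
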